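import Pool.Agent.Lib.MP_c3d375_an.Neg.H59.PPrime

/-!
# Lemma P' (section 3 of `Neg/Paper.md`): the core estimate
-/

set_option linter.unusedSectionVars false

open Complex ContinuousLinearMap

namespace Pool.Agent.Lib.MP_c3d375_an.Neg.H59

variable {H : Type*} [NormedAddCommGroup H] [InnerProductSpace ℂ H] [CompleteSpace H]
variable {m e : ℝ} {Q j De : H →L[ℂ] H}

/-- The core of Lemma P': `rho = r^2`, `e = s^4 eta rho^2`; then `s` is bounded below. -/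
theorem core {r s η : ℝ} (d : PData m e (r ^ 2) Q j De) (hme : m * e ≤ 1 / 8) (hr : 0 < r)
    (hs : 0 < s) (hs1 : s ≤ 1) (v : H) (hv : ‖v‖ ≤ m) (hη : ‖Q v‖ = η) (hη0 : 0 < η)
    (he : e = s ^ 4 * η * r ^ 4)
    (hw : B (Q v) v + (1 / 8) * r ^ 4 * B (Q (Q v)) (Q v) ≤ 0) :
    2 ≤ 1577 * m ^ 12 * s := by
  have m1 := d.m1
  have m0 : (0 : ℝ) < m := by linarith
  have e0 := d.e0
  have rm2 : r ^ 2 ≤ m := d.Rm
  have r2 : (0 : ℝ) < r ^ 2 := by positivity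
  have rm : r ≤ m := by
    have : r ^ 2 ≤ m ^ 2 := rm2.trans (by nlinarith)
    exact le_of_sq_le_sq this (by positivity)
  have hme0 : 0 < m * e := by positivity
  have hme1 : m * e ≤ 1 := by linarith
  have mp : ∀ a b : ℕ, a ≤ b → m ^ a ≤ m ^ b := fun a b h => pow_le_pow_right₀ m1 h
  have sp : ∀ a b : ℕ, a ≤ b → s ^ b ≤ s ^ a := fun a b h => pow_le_pow_of_le_one hs.le hs1 h
  set u := Q v with hu
  set y := adjoint Q v with hy
  set Z := u + y with hZ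
  set g := adjoint Q u with hg
  have nu : ‖u‖ = η := hη
  have nQu : ‖Q u‖ ≤ m / r ^ 2 * η := by
    have := opn d.nQ u
    rwa [hη] at this
  -- (F1)
  have F1 : η * r ^ 2 ≤ m ^ 2 := by
    have h1 : η ≤ m / r ^ 2 * ‖v‖ := by rw [← hη]; exact opn d.nQ v
    have h2 : η ≤ m / r ^ 2 * m := h1.trans (by gcongr)
    calc η * r ^ 2 ≤ (m / r ^ 2 * m) * r ^ 2 := by gcongr
      _ = m ^ 2 := by field_simp
  -- e is small
  have E1 : e ≤ m ^ 3 * s ^ 4 := by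
    calc e = s ^ 4 * (η * r ^ 2) * r ^ 2 := by rw [he]; ring
      _ ≤ s ^ 4 * m ^ 2 * m := by gcongr
      _ = m ^ 3 * s ^ 4 := by ring
  -- (1), (2)
  have hDQu : ‖De (Q u)‖ ≤ m * e * (m / r ^ 2 * η) := (opn d.nD _).trans (by gcongr)
  have hDu : ‖De u‖ ≤ m * e * η := by
    have := opn d.nD u
    rwa [nu] at this
  have hBDQu : |B (De (Q u)) u| ≤ m ^ 2 * s ^ 4 * η ^ 3 * r ^ 2 := by
    calc |B (De (Q u)) u| ≤ ‖De (Q u)‖ * ‖u‖ := B_abs _ _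
      _ ≤ m * e * (m / r ^ 2 * η) * η := by rw [nu]; gcongr
      _ = m ^ 2 * s ^ 4 * η ^ 3 * r ^ 2 := by rw [he]; field_simp
  have hBDu : |B (De u) v| ≤ m ^ 2 * e * η := by
    calc |B (De u) v| ≤ ‖De u‖ * ‖v‖ := B_abs _ _
      _ ≤ m * e * η * m := by gcongr
      _ = m ^ 2 * e * η := by ring
  have hPl : -(m ^ 2 * s ^ 4 * η ^ 3 * r ^ 2) ≤ B (Q u) u := by
    have h1 := d.pN u
    rw [d.Nx, B_add] at h1
    have h2 := (abs_le.1 hBDQu).2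
    linarith
  have ht : B u v ≤ 1 / 8 * m ^ 4 * e * η := by
    have h1 : 1 / 8 * r ^ 4 * -(m ^ 2 * s ^ 4 * η ^ 3 * r ^ 2) ≤ 1 / 8 * r ^ 4 * B (Q u) u := by
      gcongr
    have h2 : 1 / 8 * r ^ 4 * (m ^ 2 * s ^ 4 * η ^ 3 * r ^ 2) ≤ 1 / 8 * m ^ 4 * e * η := by
      calc 1 / 8 * r ^ 4 * (m ^ 2 * s ^ 4 * η ^ 3 * r ^ 2)
          = 1 / 8 * m ^ 2 * e * η * (η * r ^ 2) := by rw [he]; ring
        _ ≤ 1 / 8 * m ^ 2 * e * η * m ^ 2 := by gcongr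
        _ = 1 / 8 * m ^ 4 * e * η := by ring
    linarith
  have hvM : B ((Q * (1 + De)) v) v ≤ (2 * m ^ 2 * s ^ 2 * η * r ^ 2) ^ 2 := by
    rw [d.Nx, B_add, ← hu]
    have h2 := (abs_le.1 hBDu).2
    have h3 : m ^ 2 * e * η ≤ m ^ 4 * e * η := by gcongr; norm_num
    calc B u v + B (De u) v ≤ 4 * m ^ 4 * e * η := by
            have : 0 ≤ m ^ 4 * e * η := by positivity
            linarith
      _ = (2 * m ^ 2 * s ^ 2 * η * r ^ 2) ^ 2 := by rw [he]; ring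
  have htl : -(m ^ 2 * e * η) ≤ B u v := by
    have h1 := d.pN v
    rw [d.Nx, B_add, ← hu] at h1
    have h2 := (abs_le.1 hBDu).2
    linarith
  have hPu : B (Q u) u ≤ 8 * m ^ 2 * s ^ 4 * η ^ 2 := by
    have h1 : r ^ 4 * B (Q u) u ≤ r ^ 4 * (8 * m ^ 2 * s ^ 4 * η ^ 2) := by
      have h2 : r ^ 4 * (8 * m ^ 2 * s ^ 4 * η ^ 2) = 8 * (m ^ 2 * e * η) := by rw [he]; ring
      rw [h2]
      linarith
    exact le_of_mul_le_mul_left h1 (by positivity)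
  have huM : B ((Q * (1 + De)) u) u ≤ (3 * m ^ 2 * s ^ 2 * η) ^ 2 := by
    rw [d.Nx, B_add]
    have h2 := (abs_le.1 hBDQu).2
    have h3 : m ^ 2 * s ^ 4 * η ^ 3 * r ^ 2 ≤ m ^ 4 * s ^ 4 * η ^ 2 := by
      calc m ^ 2 * s ^ 4 * η ^ 3 * r ^ 2 = m ^ 2 * s ^ 4 * η ^ 2 * (η * r ^ 2) := by ring
        _ ≤ m ^ 2 * s ^ 4 * η ^ 2 * m ^ 2 := by gcongr
        _ = m ^ 4 * s ^ 4 * η ^ 2 := by ring
    have h4 : 8 * m ^ 2 * s ^ 4 * η ^ 2 ≤ 8 * m ^ 4 * s ^ 4 * η ^ 2 := by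
      gcongr; norm_num
    calc B (Q u) u + B (De (Q u)) u ≤ 9 * m ^ 4 * s ^ 4 * η ^ 2 := by linarith
      _ = (3 * m ^ 2 * s ^ 2 * η) ^ 2 := by ring
  -- the norm of N
  have nN : ‖Q * (1 + De)‖ ≤ (2 * m / r) ^ 2 := by
    apply ContinuousLinearMap.opNorm_le_bound _ (by positivity)
    intro x
    rw [d.Nx]
    calc ‖Q x + De (Q x)‖ ≤ ‖Q x‖ + ‖De (Q x)‖ := norm_add_le _ _
      _ ≤ m / r ^ 2 * ‖x‖ + m * e * (m / r ^ 2 * ‖x‖) := by
          gcongr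
          · exact opn d.nQ x
          · exact (opn d.nD _).trans (by gcongr; exact opn d.nQ x)
      _ ≤ m / r ^ 2 * ‖x‖ + 1 * (m / r ^ 2 * ‖x‖) := by gcongr
      _ = 2 * m / r ^ 2 * ‖x‖ := by ring
      _ ≤ 4 * m ^ 2 / r ^ 2 * ‖x‖ := by
          gcongr ?_ / r ^ 2 * ‖x‖
          nlinarith
      _ = (2 * m / r) ^ 2 * ‖x‖ := by ring
  -- (3)
  set Av := (Q * (1 + De)) v + adjoint (Q * (1 + De)) v with hAv
  have nAv : ‖Av‖ ≤ 8 * m ^ 3 * s ^ 2 * η * r := by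
    have h := cs_norm (Q * (1 + De)) d.pN v (2 * m ^ 2 * s ^ 2 * η * r ^ 2) (2 * m / r)
      (by positivity) (by positivity) hvM nN
    calc ‖Av‖ ≤ 2 * (2 * m ^ 2 * s ^ 2 * η * r ^ 2) * (2 * m / r) := h
      _ = 8 * m ^ 3 * s ^ 2 * η * r := by field_simp; ring
  have eAv : Z = Av - De u - adjoint De y := by
    rw [hAv, d.Nx, PData.Nax, ← hu, ← hy, hZ]
    abel
  have nDy : ‖adjoint De y‖ ≤ m * e * ‖y‖ := adjn d.nD y
  have ny : ‖y‖ ≤ ‖Z‖ + η := by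
    have : y = Z - u := by rw [hZ]; abel
    calc ‖y‖ = ‖Z - u‖ := by rw [← this]
      _ ≤ ‖Z‖ + ‖u‖ := norm_sub_le _ _
      _ = ‖Z‖ + η := by rw [nu]
  have eη : m * e * η ≤ m ^ 4 * s ^ 2 * η := by
    calc m * e * η ≤ m * (m ^ 3 * s ^ 4) * η := by gcongr
      _ ≤ m * (m ^ 3 * s ^ 2) * η := by have := sp 2 4 (by norm_num); gcongr m * (_ * ?_) * _
      _ = m ^ 4 * s ^ 2 * η := by ring
  have nZ : ‖Z‖ ≤ 20 * m ^ 4 * s ^ 2 * η := by
    have h1 : ‖Z‖ ≤ ‖Av‖ + ‖De u‖ + ‖adjoint De y‖ := by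
      rw [eAv]
      exact (norm_sub_le _ _).trans (by gcongr; exact norm_sub_le _ _)
    have h2 : ‖adjoint De y‖ ≤ m * e * (‖Z‖ + η) := nDy.trans (by gcongr)
    have h3 : m * e * ‖Z‖ ≤ 1 / 2 * ‖Z‖ := by
      gcongr; linarith
    have h4 : 8 * m ^ 3 * s ^ 2 * η * r ≤ 8 * m ^ 4 * s ^ 2 * η := by
      calc 8 * m ^ 3 * s ^ 2 * η * r ≤ 8 * m ^ 3 * s ^ 2 * η * m := by gcongr
        _ = 8 * m ^ 4 * s ^ 2 * η := by ring
    have h5 : m * e * (‖Z‖ + η) = m * e * ‖Z‖ + m * e * η := by ring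
    linarith
  -- (4)
  have hKu : Q (j u) = v - j v := by
    rw [hu, d.jQ, d.QQj]
  have hKv : Q (j v) = j u := by
    rw [hu, d.jQ]
  have nKu : ‖v - j v‖ ≤ m * η := by
    rw [← hKu]
    have := opn d.nK u
    rwa [nu] at this
  have nKv : ‖j u‖ ≤ m * η := by
    have := opn d.nj u
    rwa [nu] at this
  have hk : B (v - j v) v + B (j u) u = B (j u) Z := by
    rw [hZ, B_addr, hy, ← B_adj, hKu]
    ring
  have eη2 : e * η ^ 2 ≤ m ^ 2 * s ^ 2 * r ^ 2 * η ^ 2 := by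
    calc e * η ^ 2 = s ^ 4 * (η * r ^ 2) * r ^ 2 * η ^ 2 := by rw [he]; ring
      _ ≤ s ^ 2 * m ^ 2 * r ^ 2 * η ^ 2 := by
          have := sp 2 4 (by norm_num)
          gcongr ?_ * ?_ * r ^ 2 * η ^ 2
      _ = m ^ 2 * s ^ 2 * r ^ 2 * η ^ 2 := by ring
  have nZ2 : ‖Z‖ ≤ 20 * m ^ 4 * η := by
    calc ‖Z‖ ≤ 20 * m ^ 4 * s ^ 2 * η := nZ
      _ ≤ 20 * m ^ 4 * 1 * η := by gcongr; exact pow_le_one₀ hs.le hs1
      _ = 20 * m ^ 4 * η := by ring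
  have hk12 : B (v - j v) v + B (j u) u ≤ 30 * m ^ 8 * s ^ 2 * r ^ 2 * η ^ 2 := by
    rw [hk, eAv, B_subr, B_subr, B_comm (j u) Av]
    have h1 : |B Av (j u)| ≤ 2 * (2 * m ^ 2 * s ^ 2 * η * r ^ 2) * (2 * m * η) := by
      apply cs (Q * (1 + De)) d.pN v (j u) _ _ (by positivity) (by positivity) hvM
      rw [d.Nx, B_add]
      have h2 : B (Q (j u)) (j u) ≤ m * η * (m * η) := (B_le _ _).trans (by
        rw [hKu]; gcongr)
      have h3 : B (De (Q (j u))) (j u) ≤ 1 * (m * η) * (m * η) := (B_le _ _).trans (by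
        gcongr
        refine (opn d.nD _).trans ?_
        rw [hKu]; gcongr)
      nlinarith [mul_pos m0 hη0]
    have h2 : |B (j u) (De u)| ≤ m * η * (m * e * η) := (B_abs _ _).trans (by gcongr)
    have h3 : |B (j u) (adjoint De y)| ≤ m * η * (m * e * (20 * m ^ 4 * η + η)) :=
      (B_abs _ _).trans (by gcongr; exact nDy.trans (by gcongr; exact ny.trans (by gcongr)))
    have h4 := (abs_le.1 h1).2
    have h5 := (abs_le.1 h2).1
    have h6 := (abs_le.1 h3).1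
    have h7 : m * η * (m * e * η) + m * η * (m * e * (20 * m ^ 4 * η + η))
        ≤ 22 * m ^ 8 * s ^ 2 * r ^ 2 * η ^ 2 := by
      calc m * η * (m * e * η) + m * η * (m * e * (20 * m ^ 4 * η + η))
          = (2 * m ^ 2 + 20 * m ^ 6) * (e * η ^ 2) := by ring
        _ ≤ (2 * m ^ 6 + 20 * m ^ 6) * (m ^ 2 * s ^ 2 * r ^ 2 * η ^ 2) := by
            gcongr
            norm_num
        _ = 22 * m ^ 8 * s ^ 2 * r ^ 2 * η ^ 2 := by ring
    have h8 : 2 * (2 * m ^ 2 * s ^ 2 * η * r ^ 2) * (2 * m * η)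
        ≤ 8 * m ^ 8 * s ^ 2 * r ^ 2 * η ^ 2 := by
      calc 2 * (2 * m ^ 2 * s ^ 2 * η * r ^ 2) * (2 * m * η)
          = 8 * m ^ 3 * s ^ 2 * r ^ 2 * η ^ 2 := by ring
        _ ≤ 8 * m ^ 8 * s ^ 2 * r ^ 2 * η ^ 2 := by gcongr; norm_num
    linarith
  have hmk : m ^ 3 * (e * η ^ 2) ≤ m ^ 8 * s ^ 2 * r ^ 2 * η ^ 2 := by
    calc m ^ 3 * (e * η ^ 2) ≤ m ^ 3 * (m ^ 2 * s ^ 2 * r ^ 2 * η ^ 2) := by gcongr
      _ = m ^ 5 * s ^ 2 * r ^ 2 * η ^ 2 := by ring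
      _ ≤ m ^ 8 * s ^ 2 * r ^ 2 * η ^ 2 := by gcongr; norm_num
  have hk1 : -(m ^ 8 * s ^ 2 * r ^ 2 * η ^ 2) ≤ B (v - j v) v := by
    have h1 := d.pJ v
    have h2 : (1 - j) v = v - j v := rfl
    rw [h2] at h1
    have h3 : m * e * ‖v - j v‖ ^ 2 ≤ m * e * (m * η) ^ 2 := by gcongr
    have h4 : m * e * (m * η) ^ 2 = m ^ 3 * (e * η ^ 2) := by ring
    linarith
  have hk2 : -(m ^ 8 * s ^ 2 * r ^ 2 * η ^ 2) ≤ B (j u) u := by
    have h1 := d.pj u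
    have h3 : m * e * ‖j u‖ ^ 2 ≤ m * e * (m * η) ^ 2 := by gcongr
    have h4 : m * e * (m * η) ^ 2 = m ^ 3 * (e * η ^ 2) := by ring
    linarith
  have hk1' : B (v - j v) v ≤ 31 * m ^ 8 * s ^ 2 * r ^ 2 * η ^ 2 := by linarith
  have hk2' : B (j u) u ≤ 31 * m ^ 8 * s ^ 2 * r ^ 2 * η ^ 2 := by linarith
  -- (5)
  set T1 : H →L[ℂ] H := (1 - j) + ((m * e : ℝ) : ℂ) • (adjoint (1 - j) * (1 - j)) with hT1
  have eT1 : ∀ x, T1 x = (x - j x) + ((m * e : ℝ) : ℂ) • adjoint (1 - j) (x - j x) := fun x => rfl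
  have pT1 : ∀ x, B (T1 x) x = B (x - j x) x + m * e * ‖x - j x‖ ^ 2 := by
    intro x
    rw [eT1, B_add, B_smul, B_adj', ← B_self]
    rfl
  have pT1' : ∀ x, 0 ≤ B (T1 x) x := by
    intro x
    rw [pT1]
    have h1 := d.pJ x
    have h2 : (1 - j) x = x - j x := rfl
    rw [h2] at h1
    linarith
  have hT1v : B (T1 v) v ≤ (6 * m ^ 4 * s * r * η) ^ 2 := by
    rw [pT1]
    have h3 : m * e * ‖v - j v‖ ^ 2 ≤ m * e * (m * η) ^ 2 := by gcongr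
    have h4 : m * e * (m * η) ^ 2 = m ^ 3 * (e * η ^ 2) := by ring
    have h5 : 0 ≤ m ^ 8 * s ^ 2 * r ^ 2 * η ^ 2 := by positivity
    have h6 : (6 * m ^ 4 * s * r * η) ^ 2 = 36 * (m ^ 8 * s ^ 2 * r ^ 2 * η ^ 2) := by ring
    rw [h6]
    linarith
  -- (6)
  set Au := (Q * (1 + De)) u + adjoint (Q * (1 + De)) u with hAu
  have nAu : ‖Au‖ ≤ 12 * m ^ 3 * s ^ 2 * η / r := by
    have h := cs_norm (Q * (1 + De)) d.pN u (3 * m ^ 2 * s ^ 2 * η) (2 * m / r)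
      (by positivity) (by positivity) huM nN
    calc ‖Au‖ ≤ 2 * (3 * m ^ 2 * s ^ 2 * η) * (2 * m / r) := h
      _ = 12 * m ^ 3 * s ^ 2 * η / r := by field_simp; ring
  have eAu : Au = Q u + De (Q u) + g + adjoint De g := by
    rw [hAu, d.Nx, PData.Nax, ← hg]
    abel
  have nDQu : ‖De (Q u)‖ ≤ 1 / 8 * ‖Q u‖ := (opn d.nD _).trans (by gcongr)
  have nDg : ‖adjoint De g‖ ≤ 1 / 8 * ‖g‖ := (adjn d.nD _).trans (by gcongr)
  have nQu2 : ‖Q u‖ ≤ 2 * ‖Au‖ + 2 * ‖g‖ := by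
    have h1 : Q u = Au - De (Q u) - g - adjoint De g := by rw [eAu]; abel
    have h2 : ‖Q u‖ ≤ ‖Au‖ + ‖De (Q u)‖ + ‖g‖ + ‖adjoint De g‖ := by
      conv_lhs => rw [h1]
      refine (norm_sub_le _ _).trans ?_
      gcongr
      refine (norm_sub_le _ _).trans ?_
      gcongr
      exact norm_sub_le _ _
    have := norm_nonneg g
    have := norm_nonneg Au
    linarith
  have ng : ‖g‖ ≤ 2 * η + 2 * ‖Au‖ := by
    have h1 := d.pH u
    rw [nu] at h1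
    have h2 : B (Q (Q u)) u = B (Q u) g := by rw [B_adj]
    have h3 : B (Q u) g = B Au g - B (De (Q u)) g - ‖g‖ ^ 2 - B (adjoint De g) g := by
      rw [eAu, B_add, B_add, B_add, B_self]
      ring
    have h4 := B_le Au g
    have h5 := (abs_le.1 (B_abs (De (Q u)) g)).1
    have h6 := (abs_le.1 (B_abs (adjoint De g) g)).1
    have h7 : ‖De (Q u)‖ * ‖g‖ ≤ 1 / 8 * (2 * ‖Au‖ + 2 * ‖g‖) * ‖g‖ := by
      gcongr
      exact nDQu.trans (by gcongr)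
    have h8 : ‖adjoint De g‖ * ‖g‖ ≤ 1 / 8 * ‖g‖ * ‖g‖ := by gcongr
    have h9 : (1 + m * e) * η ^ 2 ≤ 2 * η ^ 2 := by gcongr; linarith
    have h10 : ‖g‖ ^ 2 ≤ 2 * η ^ 2 + ‖Au‖ * ‖g‖ + 1 / 8 * (2 * ‖Au‖ + 2 * ‖g‖) * ‖g‖
        + 1 / 8 * ‖g‖ * ‖g‖ := by linarith
    have h11 := norm_nonneg g
    have h12 := norm_nonneg Au
    have h13 : (‖g‖ - ‖Au‖) ^ 2 ≤ (2 * η + ‖Au‖) ^ 2 := by
      have h14 : 0 ≤ η * ‖Au‖ := by positivity
      have h15 : 0 ≤ η ^ 2 := by positivity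
      have h16 : 5 / 8 * ‖g‖ ^ 2 ≤ 2 * η ^ 2 + 5 / 4 * (‖Au‖ * ‖g‖) := by linarith
      have h17 : (‖g‖ - ‖Au‖) ^ 2 = ‖g‖ ^ 2 - 2 * (‖Au‖ * ‖g‖) + ‖Au‖ ^ 2 := by ring
      have h18 : (2 * η + ‖Au‖) ^ 2 = 4 * η ^ 2 + 4 * (η * ‖Au‖) + ‖Au‖ ^ 2 := by ring
      rw [h17, h18]
      linarith
    have h19 := le_of_sq_le_sq h13 (by positivity)
    linarith
  have ng1 : ‖g‖ ≤ 2 * η + 24 * m ^ 3 * s ^ 2 * η / r := by
    have : 24 * m ^ 3 * s ^ 2 * η / r = 2 * (12 * m ^ 3 * s ^ 2 * η / r) := by ring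
    linarith
  -- the useful products of `‖g‖`
  have eg : e * ‖g‖ ≤ 26 * m ^ 6 * s ^ 2 * η := by
    calc e * ‖g‖ ≤ e * (2 * η + 24 * m ^ 3 * s ^ 2 * η / r) := by gcongr
      _ = 2 * e * η + 24 * m ^ 3 * s ^ 6 * η * ((η * r ^ 2) * r) := by
          rw [he]; field_simp
      _ ≤ 2 * (m ^ 3 * s ^ 4) * η + 24 * m ^ 3 * s ^ 6 * η * (m ^ 2 * m) := by gcongr
      _ ≤ 2 * (m ^ 6 * s ^ 2) * η + 24 * m ^ 3 * s ^ 2 * η * (m ^ 2 * m) := by
          have h1 := sp 2 4 (by norm_num)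
          have h2 := sp 2 6 (by norm_num)
          have h3 := mp 3 6 (by norm_num)
          gcongr
      _ = 26 * m ^ 6 * s ^ 2 * η := by ring
  have rg : r * ‖g‖ ≤ 26 * m ^ 3 * η := by
    calc r * ‖g‖ ≤ r * (2 * η + 24 * m ^ 3 * s ^ 2 * η / r) := by gcongr
      _ = 2 * r * η + 24 * m ^ 3 * s ^ 2 * η := by field_simp
      _ ≤ 2 * m ^ 3 * η + 24 * m ^ 3 * 1 * η := by
          have h1 : r ≤ m ^ 3 := rm.trans (by simpa using mp 1 3 (by norm_num))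
          have h2 : s ^ 2 ≤ 1 := pow_le_one₀ hs.le hs1
          gcongr
      _ = 26 * m ^ 3 * η := by ring
  -- (7)
  have hQju : Q (j (Q u)) = u - j u := by rw [d.jQ, d.QQj]
  have nKAu : ‖Q (j Au)‖ ≤ 12 * m ^ 3 * s ^ 2 * η := by
    set w := Q (j Au) with hw'
    have h1 : B w w = B Au (adjoint (Q * j) w) := by
      rw [← B_adj]
      rfl
    have h2 : |B Au (adjoint (Q * j) w)| ≤ 2 * (3 * m ^ 2 * s ^ 2 * η) * (2 * m * ‖w‖) := by
      apply cs (Q * (1 + De)) d.pN u _ _ _ (by positivity) (by positivity) huM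
      rw [B_comm, B_adj', B_comm, d.Nx]
      have h3 : (Q * j) (Q (adjoint (Q * j) w) + De (Q (adjoint (Q * j) w)))
          = (1 - j) (adjoint (Q * j) w) + De ((1 - j) (adjoint (Q * j) w)) := by
        set w2 := adjoint (Q * j) w
        have h4 : (1 - j) w2 = w2 - j w2 := rfl
        have h5 : (Q * j) (Q w2 + De (Q w2)) = Q (j (Q w2)) + Q (j (De (Q w2))) := by
          change Q (j (Q w2 + De (Q w2))) = _
          rw [map_add, map_add]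
        have h6 : De (Q w2) = Q (De w2) := d.DQ w2
        rw [h5, h4, h6, d.jQ, d.jQ, d.QQj, d.QQj, map_sub, d.jD']
      rw [h3]
      have h7 : ‖adjoint (Q * j) w‖ ≤ m * ‖w‖ := adjn d.nK w
      have h8 : ‖(1 - j) (adjoint (Q * j) w)‖ ≤ m * (m * ‖w‖) := (opn d.nJ _).trans (by gcongr)
      have h9 : ‖De ((1 - j) (adjoint (Q * j) w))‖ ≤ 1 * (m * (m * ‖w‖)) :=
        (opn d.nD _).trans (by gcongr)
      have h10 : ‖(1 - j) (adjoint (Q * j) w) + De ((1 - j) (adjoint (Q * j) w))‖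
          ≤ 2 * m ^ 2 * ‖w‖ := (norm_add_le _ _).trans (by nlinarith)
      calc B ((1 - j) (adjoint (Q * j) w) + De ((1 - j) (adjoint (Q * j) w))) w
          ≤ ‖(1 - j) (adjoint (Q * j) w) + De ((1 - j) (adjoint (Q * j) w))‖ * ‖w‖ := B_le _ _
        _ ≤ 2 * m ^ 2 * ‖w‖ * ‖w‖ := by gcongr
        _ ≤ 4 * m ^ 2 * ‖w‖ * ‖w‖ := by gcongr; norm_num
        _ = (2 * m * ‖w‖) ^ 2 := by ring
    rw [← h1, B_self, abs_of_nonneg (by positivity)] at h2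
    rcases (norm_nonneg w).eq_or_lt with h0 | h0
    · rw [← h0]; positivity
    · have : ‖w‖ * ‖w‖ ≤ (12 * m ^ 3 * s ^ 2 * η) * ‖w‖ := by nlinarith
      exact le_of_mul_le_mul_right this h0
  set w7 := Q (j g) + (u - j u) with hw7
  have ew7 : w7 = Q (j Au) - De (u - j u) - Q (j (adjoint De g)) := by
    have h1 : De (u - j u) = Q (j (De (Q u))) := by
      rw [d.DQ u, d.jQ (De u), d.QQj, map_sub, d.jD']
    rw [eAu, map_add, map_add, map_add, map_add, map_add, map_add, hQju, h1, hw7]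
    abel
  have nuj : ‖u - j u‖ ≤ m * η := by
    have h1 : (1 - j) u = u - j u := rfl
    rw [← h1]
    have := opn d.nJ u
    rwa [nu] at this
  have nw7 : ‖w7‖ ≤ 39 * m ^ 8 * s ^ 2 * η := by
    have h1 : ‖w7‖ ≤ ‖Q (j Au)‖ + ‖De (u - j u)‖ + ‖Q (j (adjoint De g))‖ := by
      rw [ew7]
      exact (norm_sub_le _ _).trans (by gcongr; exact norm_sub_le _ _)
    have h2 : ‖De (u - j u)‖ ≤ m ^ 5 * s ^ 2 * η := by
      calc ‖De (u - j u)‖ ≤ m * e * (m * η) := (opn d.nD _).trans (by gcongr)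
        _ = m * (m * e * η) := by ring
        _ ≤ m * (m ^ 4 * s ^ 2 * η) := by gcongr
        _ = m ^ 5 * s ^ 2 * η := by ring
    have h3 : ‖Q (j (adjoint De g))‖ ≤ 26 * m ^ 8 * s ^ 2 * η := by
      have h4 : ‖Q (j (adjoint De g))‖ ≤ m * (m * e * ‖g‖) :=
        (opn d.nK (adjoint De g)).trans (by gcongr; exact adjn d.nD g)
      calc ‖Q (j (adjoint De g))‖ ≤ m * (m * e * ‖g‖) := h4
        _ = m ^ 2 * (e * ‖g‖) := by ring
        _ ≤ m ^ 2 * (26 * m ^ 6 * s ^ 2 * η) := by gcongr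
        _ = 26 * m ^ 8 * s ^ 2 * η := by ring
    have h5 : 12 * m ^ 3 * s ^ 2 * η ≤ 12 * m ^ 8 * s ^ 2 * η := by gcongr; norm_num
    have h6 : m ^ 5 * s ^ 2 * η ≤ m ^ 8 * s ^ 2 * η := by gcongr; norm_num
    linarith
  -- (8)
  have h8 : B g (adjoint (Q * j) u) = B w7 u - η ^ 2 + B (j u) u := by
    rw [← B_adj]
    have h1 : (Q * j) g = w7 - (u - j u) := by rw [hw7]; change Q (j g) = _; abel
    rw [h1, B_sub, B_sub, B_self, nu]
    ring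
  -- (9)
  have e9 : adjoint (Q * j) u = adjoint (Q * j) Z + Q (j u)
      - (v - j v + adjoint (1 - j) v) := by
    have h1 : adjoint (Q * j) y = adjoint (1 - j) v := by
      rw [hy]
      have h2 : adjoint (Q * j) (adjoint Q v) = adjoint (Q * (Q * j)) v := (adj_mul _ _ _).symm
      rw [h2]
      have h3 : Q * (Q * j) = 1 - j := by
        rw [← d.J]; abel
      rw [h3]
    have h4 : adjoint (Q * j) Z = adjoint (Q * j) u + adjoint (Q * j) y := by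
      rw [hZ, map_add]
    rw [h4, h1, hKu]
    abel
  have h9a : B g (Q (j u)) = η ^ 2 - B (j u) u := by
    rw [hg, B_adj', ← d.jQ, ← d.jQ, d.jQ, d.jQ]
    have h1 : Q (Q (j u)) = u - j u := d.QQj u
    rw [h1, B_comm, B_sub, B_self, nu]
  have h9b : |B g (adjoint (Q * j) Z)| ≤ 800 * m ^ 12 * s ^ 2 * η ^ 2 := by
    rw [← B_adj]
    have h1 : (Q * j) g = w7 - (u - j u) := by rw [hw7]; change Q (j g) = _; abel
    rw [h1]
    have h2 : ‖w7 - (u - j u)‖ ≤ 40 * m ^ 8 * η := by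
      calc ‖w7 - (u - j u)‖ ≤ ‖w7‖ + ‖u - j u‖ := norm_sub_le _ _
        _ ≤ 39 * m ^ 8 * s ^ 2 * η + m * η := by gcongr
        _ ≤ 39 * m ^ 8 * 1 * η + m ^ 8 * η := by
            have h3 : s ^ 2 ≤ 1 := pow_le_one₀ hs.le hs1
            have h4 : m ≤ m ^ 8 := by simpa using mp 1 8 (by norm_num)
            gcongr
        _ = 40 * m ^ 8 * η := by ring
    calc |B (w7 - (u - j u)) Z| ≤ ‖w7 - (u - j u)‖ * ‖Z‖ := B_abs _ _
      _ ≤ 40 * m ^ 8 * η * (20 * m ^ 4 * s ^ 2 * η) := by gcongr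
      _ = 800 * m ^ 12 * s ^ 2 * η ^ 2 := by ring
  have h9c : |B g (T1 v + adjoint T1 v)| ≤ 624 * m ^ 8 * s * η ^ 2 := by
    rw [B_comm]
    have h1 : |B (T1 v + adjoint T1 v) g| ≤ 2 * (6 * m ^ 4 * s * r * η) * (2 * m * ‖g‖) := by
      apply cs T1 pT1' v g _ _ (by positivity) (by positivity) hT1v
      rw [pT1]
      have h2 : ‖g - j g‖ ≤ m * ‖g‖ := opn d.nJ g
      have h3 : B (g - j g) g ≤ m * ‖g‖ * ‖g‖ := (B_le _ _).trans (by gcongr)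
      have h4 : m * e * ‖g - j g‖ ^ 2 ≤ 1 * (m * ‖g‖) ^ 2 := by gcongr
      have h5 : m * ‖g‖ * ‖g‖ ≤ m ^ 2 * ‖g‖ * ‖g‖ := by
        gcongr
        simpa using mp 1 2 (by norm_num)
      calc B (g - j g) g + m * e * ‖g - j g‖ ^ 2 ≤ 2 * (m ^ 2 * ‖g‖ ^ 2) := by nlinarith
        _ ≤ 4 * (m ^ 2 * ‖g‖ ^ 2) := by gcongr; norm_num
        _ = (2 * m * ‖g‖) ^ 2 := by ring
    calc |B (T1 v + adjoint T1 v) g| ≤ 2 * (6 * m ^ 4 * s * r * η) * (2 * m * ‖g‖) := h1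
      _ = 24 * m ^ 5 * s * η * (r * ‖g‖) := by ring
      _ ≤ 24 * m ^ 5 * s * η * (26 * m ^ 3 * η) := by gcongr
      _ = 624 * m ^ 8 * s * η ^ 2 := by ring
  have eT1v : v - j v + adjoint (1 - j) v = (T1 v + adjoint T1 v)
      - ((2 * (m * e) : ℝ) : ℂ) • adjoint (1 - j) (v - j v) := by
    have h1 : adjoint T1 v = adjoint (1 - j) v
        + ((m * e : ℝ) : ℂ) • adjoint (1 - j) (v - j v) := by
      have h2 : adjoint T1 = adjoint (1 - j)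
          + ((m * e : ℝ) : ℂ) • (adjoint (1 - j) * (1 - j)) := by
        rw [hT1, ← ContinuousLinearMap.star_eq_adjoint, ← ContinuousLinearMap.star_eq_adjoint,
          star_add, star_smul, star_mul, star_star]
        simp
      rw [h2]
      rfl
    have h3 : ((2 * (m * e) : ℝ) : ℂ) = ((m * e : ℝ) : ℂ) + ((m * e : ℝ) : ℂ) := by
      rw [← Complex.ofReal_add, two_mul]
    rw [h1, eT1, h3, add_smul]
    abel
  have h9d : |2 * (m * e) * B (g - j g) (v - j v)| ≤ 52 * m ^ 9 * s ^ 2 * η ^ 2 := by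
    rw [abs_mul, abs_of_nonneg (by positivity)]
    have h2 : ‖g - j g‖ ≤ m * ‖g‖ := opn d.nJ g
    calc 2 * (m * e) * |B (g - j g) (v - j v)| ≤ 2 * (m * e) * (m * ‖g‖ * (m * η)) := by
          gcongr
          exact (B_abs _ _).trans (by gcongr)
      _ = 2 * m ^ 3 * η * (e * ‖g‖) := by ring
      _ ≤ 2 * m ^ 3 * η * (26 * m ^ 6 * s ^ 2 * η) := by gcongr
      _ = 52 * m ^ 9 * s ^ 2 * η ^ 2 := by ring
  have h9e : B g (v - j v + adjoint (1 - j) v) = B g (T1 v + adjoint T1 v)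
      - 2 * (m * e) * B (g - j g) (v - j v) := by
    rw [eT1v, B_subr, B_smulr, ← B_adj]
    rfl
  -- conclusion
  have hfin : 2 * η ^ 2 = 2 * B (j u) u + B w7 u - B g (adjoint (Q * j) Z)
      + B g (T1 v + adjoint T1 v) - 2 * (m * e) * B (g - j g) (v - j v) := by
    have h1 := h8
    rw [e9, B_subr, B_addr, h9a, h9e] at h1
    linarith
  have a1 : 2 * B (j u) u ≤ 62 * m ^ 12 * s * η ^ 2 := by
    have h1 : 31 * m ^ 8 * s ^ 2 * r ^ 2 * η ^ 2 ≤ 31 * m ^ 12 * s * η ^ 2 := by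
      calc 31 * m ^ 8 * s ^ 2 * r ^ 2 * η ^ 2 ≤ 31 * m ^ 8 * s * m ^ 4 * η ^ 2 := by
            have h2 : s ^ 2 ≤ s := by simpa using sp 1 2 (by norm_num)
            have h3 : r ^ 2 ≤ m ^ 4 := rm2.trans (by simpa using mp 1 4 (by norm_num))
            gcongr
        _ = 31 * m ^ 12 * s * η ^ 2 := by ring
    linarith
  have a2 : B w7 u ≤ 39 * m ^ 12 * s * η ^ 2 := by
    calc B w7 u ≤ ‖w7‖ * ‖u‖ := B_le _ _
      _ ≤ 39 * m ^ 8 * s ^ 2 * η * η := by rw [nu]; gcongr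
      _ ≤ 39 * m ^ 12 * s * η * η := by
          have h2 : s ^ 2 ≤ s := by simpa using sp 1 2 (by norm_num)
          have h3 := mp 8 12 (by norm_num)
          gcongr
      _ = 39 * m ^ 12 * s * η ^ 2 := by ring
  have a3 : 800 * m ^ 12 * s ^ 2 * η ^ 2 ≤ 800 * m ^ 12 * s * η ^ 2 := by
    have h2 : s ^ 2 ≤ s := by simpa using sp 1 2 (by norm_num)
    gcongr
  have a4 : 624 * m ^ 8 * s * η ^ 2 ≤ 624 * m ^ 12 * s * η ^ 2 := by
    gcongr; norm_num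
  have a5 : 52 * m ^ 9 * s ^ 2 * η ^ 2 ≤ 52 * m ^ 12 * s * η ^ 2 := by
    have h2 : s ^ 2 ≤ s := by simpa using sp 1 2 (by norm_num)
    have h3 := mp 9 12 (by norm_num)
    gcongr
  have b3 := (abs_le.1 h9b).1
  have b4 := (abs_le.1 h9c).2
  have b5 := (abs_le.1 h9d).1
  have hlast : 2 * η ^ 2 ≤ (1577 * m ^ 12 * s) * η ^ 2 := by linarith
  exact le_of_mul_le_mul_right hlast (by positivity)

end Pool.Agent.Lib.MP_c3d375_an.Neg.H59
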