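import Pool.Agent.Lib.MP_c3d375_an.Neg.Iface
import Pool.Agent.Lib.MP_c3d375_an.Neg.H59.PPrime2

/-!
# Module LP: Lemma P'
-/

open Complex ContinuousLinearMap Pool.Agent.Lib.MP_c3d375_an.Neg.H59

namespace C3N.H59

/-- The certificate gives the data of Lemma P'. -/
theorem pdata {H : Type} [NormedAddCommGroup H] [InnerProductSpace ℂ H] [CompleteSpace H]
    {𝓐 : Type} [CommRing 𝓐] [Algebra ℂ 𝓐] {Φ : 𝓐 →ₐ[ℂ] (H →L[ℂ] H)} {q j Δ : 𝓐} {M e ρ : ℝ}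
    (c : Cer Φ q j Δ M e ρ) (he : 0 < e) (hρ : 0 < ρ) {m R : ℝ} (hm1 : 1 ≤ m) (hmM : M ≤ m)
    (hR : 0 < R) (hRm : R ≤ m) (hq : M / ρ ≤ m / R) :
    PData m e R (Φ q) (Φ j) (Φ Δ) := by
  have hJ : q ^ 2 * j = 1 - j := by
    have := c.hj
    linear_combination this
  have hJ' : (1 - Φ j : H →L[ℂ] H) = Φ (q ^ 2 * j) := by rw [hJ]; simp
  have hme : M * e ≤ m * e := by gcongr
  refine ⟨hm1, he, hR, hRm, ?_, ?_, ?_, ?_, ?_, ?_, ?_, ?_, ?_, ?_, ?_, ?_, ?_⟩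
  · exact (Commute.all q j).map Φ
  · exact (Commute.all q Δ).map Φ
  · exact (Commute.all j Δ).map Φ
  · rw [← map_mul, ← map_mul, ← map_add]
    have : j + q * (q * j) = 1 := by
      have := c.hj
      linear_combination this
    rw [this, map_one]
  · exact c.nq.trans hq
  · exact c.nj.trans hmM
  · rw [hJ']; exact c.nJ.trans hmM
  · rw [← map_mul]; exact c.nK.trans hmM
  · exact c.nΔ.trans hme
  · intro x
    have h := c.acc x
    rw [B_comm]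
    have h2 : Φ (q * (1 + Δ)) = Φ q * (1 + Φ Δ) := by simp
    rw [← h2]
    exact h
  · intro x
    have h := c.pj x
    rw [B_comm]
    refine le_trans ?_ h
    gcongr
  · intro x
    have h := c.pJ x
    rw [B_comm, hJ']
    refine le_trans ?_ h
    gcongr
  · intro x
    have h := c.ber x
    have h2 : Φ (1 + q ^ 2) x = x + Φ q (Φ q x) := by
      rw [map_add, map_one, map_pow, pow_two]
      rfl
    rw [h2] at h
    have h3 : (inner ℂ x (x + Φ q (Φ q x))).re = B x x + B x (Φ q (Φ q x)) := B_addr _ _ _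
    rw [h3, B_self] at h
    rw [B_comm]
    have h4 : M * e * ‖x‖ ^ 2 ≤ m * e * ‖x‖ ^ 2 := by gcongr
    linarith

theorem lp_st : LPStatement := by
  intro M θ hM hθ
  obtain ⟨σ, hσ0, hσ2⟩ : ∃ σ : ℝ, 0 < σ ∧ σ ^ 2 = 8 * θ :=
    ⟨√(8 * θ), by positivity, Real.sq_sqrt (by positivity)⟩
  obtain ⟨m, hm1, hmM, hmMσ⟩ : ∃ m : ℝ, 1 ≤ m ∧ M ≤ m ∧ M * σ ≤ m := by
    refine ⟨1 + M + M * σ, ?_, ?_, ?_⟩ <;> nlinarith [mul_pos hM hσ0]
  have hm0 : 0 < m := by linarith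
  obtain ⟨L, hL1, hL⟩ : ∃ L : ℝ, 1 ≤ L ∧ L = 800 * m ^ 12 := by
    refine ⟨_, ?_, rfl⟩
    have := one_le_pow₀ hm1 (n := 12)
    linarith
  have hL0 : 0 < L := by linarith
  refine ⟨M ^ 3 * (8 * m) + L ^ 4 / σ ^ 2, by positivity, ?_⟩
  intro H _ _ _ 𝓐 _ _ Φ q j Δ e ρ he hρ hρM c v hv hw
  have hΦq : ‖Φ q v‖ ≤ M / ρ * M := (opn c.nq v).trans (by gcongr)
  have hA : 0 ≤ M ^ 3 * (8 * m) * e := by positivity
  have hB : 0 ≤ L ^ 4 / σ ^ 2 * e := by positivity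
  rw [add_mul]
  by_cases hbig : 1 / 8 < m * e
  · have h1 : ρ ^ 2 * ‖Φ q v‖ ≤ M ^ 3 := by
      calc ρ ^ 2 * ‖Φ q v‖ ≤ ρ ^ 2 * (M / ρ * M) := by gcongr
        _ = ρ * M ^ 2 := by field_simp
        _ ≤ M * M ^ 2 := by gcongr
        _ = M ^ 3 := by ring
    have h2 : (1 : ℝ) ≤ 8 * m * e := by linarith
    have h3 : M ^ 3 * 1 ≤ M ^ 3 * (8 * m * e) := by gcongr
    have h4 : M ^ 3 * (8 * m * e) = M ^ 3 * (8 * m) * e := by ring
    linarith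
  push Not at hbig
  obtain ⟨R, hR⟩ : ∃ R : ℝ, R = σ * ρ := ⟨_, rfl⟩
  have hR0 : 0 < R := by rw [hR]; positivity
  have hRm : R ≤ m := by
    calc R ≤ σ * M := by rw [hR]; gcongr
      _ = M * σ := by ring
      _ ≤ m := hmMσ
  have hq : M / ρ ≤ m / R := by
    rw [hR, div_le_div_iff₀ hρ (by positivity)]
    calc M * (σ * ρ) = (M * σ) * ρ := by ring
      _ ≤ m * ρ := by gcongr
  have d := pdata c he hρ hm1 hmM hR0 hRm hq
  obtain ⟨η, hη⟩ : ∃ η : ℝ, ‖Φ q v‖ = η := ⟨_, rfl⟩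
  have hη0' : 0 ≤ η := by rw [← hη]; exact norm_nonneg _
  rw [hη]
  have hkey : R ^ 2 * η ≤ L ^ 4 * e := by
    rcases hη0'.eq_or_lt with h0 | h0
    · rw [← h0, mul_zero]; positivity
    by_contra hcon
    push Not at hcon
    -- r and s
    obtain ⟨r, hr0, hr2⟩ : ∃ r : ℝ, 0 < r ∧ r ^ 2 = R :=
      ⟨√R, by positivity, Real.sq_sqrt hR0.le⟩
    have hr4 : r ^ 4 = R ^ 2 := by rw [← hr2]; ring
    obtain ⟨s, hs0, hs4⟩ : ∃ s : ℝ, 0 < s ∧ s ^ 4 = e / (R ^ 2 * η) := by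
      refine ⟨√√(e / (R ^ 2 * η)), by positivity, ?_⟩
      have h1 : (√√(e / (R ^ 2 * η))) ^ 2 = √(e / (R ^ 2 * η)) := Real.sq_sqrt (by positivity)
      have h2 : (√(e / (R ^ 2 * η))) ^ 2 = e / (R ^ 2 * η) := Real.sq_sqrt (by positivity)
      calc (√√(e / (R ^ 2 * η))) ^ 4 = ((√√(e / (R ^ 2 * η))) ^ 2) ^ 2 := by ring
        _ = e / (R ^ 2 * η) := by rw [h1, h2]
    have he4 : e = s ^ 4 * η * r ^ 4 := by
      rw [hs4, hr4]; field_simp
    -- s is small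
    have hsL : (L * s) ^ 4 < 1 := by
      have h1 : L ^ 4 * e / (R ^ 2 * η) < 1 := by
        rw [div_lt_one (by positivity)]
        exact hcon
      calc (L * s) ^ 4 = L ^ 4 * s ^ 4 := by ring
        _ = L ^ 4 * e / (R ^ 2 * η) := by rw [hs4]; ring
        _ < 1 := h1
    have hsL' : L * s < 1 := by
      by_contra h
      push Not at h
      have := one_le_pow₀ h (n := 4)
      linarith
    have hs1 : s ≤ 1 := by nlinarith
    have hv' : ‖v‖ ≤ m := hv.trans hmM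
    have d' : PData m e (r ^ 2) (Φ q) (Φ j) (Φ Δ) := by rw [hr2]; exact d
    have hw' : B (Φ q v) v + (1 / 8) * r ^ 4 * B (Φ q (Φ q v)) (Φ q v) ≤ 0 := by
      have h1 : (1 / 8) * r ^ 4 = θ * ρ ^ 2 := by
        rw [hr4, hR, mul_pow, hσ2]; ring
      rw [h1, B_comm, B_comm (Φ q (Φ q v))]
      exact hw
    have h9 := core d' hbig hr0 hs0 hs1 v hv' hη h0 he4 hw'
    have h3 : 1577 * m ^ 12 * s = 1577 / 800 * (L * s) := by rw [hL]; ring
    rw [h3] at h9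
    linarith
  have h5 : ρ ^ 2 * η ≤ L ^ 4 / σ ^ 2 * e := by
    have h6 : R ^ 2 * η = σ ^ 2 * (ρ ^ 2 * η) := by rw [hR]; ring
    rw [h6] at hkey
    rw [div_mul_eq_mul_div, le_div_iff₀ (by positivity)]
    linarith
  linarith

end C3N.H59
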