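import Mathlib

/-!
# The real bilinear form `Re ⟪x, y⟫` and Cauchy-Schwarz for accretive operators
-/

open Complex ContinuousLinearMap

namespace Pool.Agent.Lib.MP_c3d375_an.Neg.H59

variable {H : Type*} [NormedAddCommGroup H] [InnerProductSpace ℂ H]

/-- the real part of the inner product -/
noncomputable def B (x y : H) : ℝ := (inner ℂ x y).re

theorem B_comm (x y : H) : B x y = B y x := by
  unfold B
  rw [← inner_conj_symm, Complex.conj_re]

theorem B_add (x y z : H) : B (x + y) z = B x z + B y z := by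
  unfold B
  rw [inner_add_left, Complex.add_re]

theorem B_addr (x y z : H) : B x (y + z) = B x y + B x z := by
  unfold B
  rw [inner_add_right, Complex.add_re]

theorem B_sub (x y z : H) : B (x - y) z = B x z - B y z := by
  unfold B
  rw [inner_sub_left, Complex.sub_re]

theorem B_subr (x y z : H) : B x (y - z) = B x y - B x z := by
  unfold B
  rw [inner_sub_right, Complex.sub_re]

theorem B_neg (x y : H) : B (-x) y = -B x y := by
  unfold B
  rw [inner_neg_left, Complex.neg_re]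

theorem B_negr (x y : H) : B x (-y) = -B x y := by
  unfold B
  rw [inner_neg_right, Complex.neg_re]

theorem B_smul (c : ℝ) (x y : H) : B ((c : ℂ) • x) y = c * B x y := by
  unfold B
  rw [inner_smul_left]
  simp

theorem B_smulr (c : ℝ) (x y : H) : B x ((c : ℂ) • y) = c * B x y := by
  unfold B
  rw [inner_smul_right]
  simp

theorem B_self (x : H) : B x x = ‖x‖ ^ 2 := by
  unfold B
  have h : ((inner ℂ x x : ℂ)).re = RCLike.re (inner ℂ x x : ℂ) := rfl
  rw [h, inner_self_eq_norm_sq (𝕜 := ℂ)]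

theorem B_abs (x y : H) : |B x y| ≤ ‖x‖ * ‖y‖ :=
  (Complex.abs_re_le_norm _).trans (norm_inner_le_norm _ _)

theorem B_le (x y : H) : B x y ≤ ‖x‖ * ‖y‖ := (le_abs_self _).trans (B_abs x y)

theorem B_ge (x y : H) : -(‖x‖ * ‖y‖) ≤ B x y := (abs_le.1 (B_abs x y)).1

variable [CompleteSpace H]

theorem B_adj (T : H →L[ℂ] H) (x y : H) : B (T x) y = B x (adjoint T y) := by
  unfold B
  rw [ContinuousLinearMap.adjoint_inner_right]

theorem B_adj' (T : H →L[ℂ] H) (x y : H) : B (adjoint T x) y = B x (T y) := by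
  unfold B
  rw [ContinuousLinearMap.adjoint_inner_left]

/-- Cauchy-Schwarz for an accretive operator. -/
theorem cs (T : H →L[ℂ] H) (hT : ∀ x, 0 ≤ B (T x) x) (x y : H) (a b : ℝ) (ha : 0 ≤ a)
    (hb : 0 ≤ b) (hx : B (T x) x ≤ a ^ 2) (hy : B (T y) y ≤ b ^ 2) :
    |B (T x + adjoint T x) y| ≤ 2 * a * b := by
  set X := B (T x + adjoint T x) y with hX
  have h1 : ∀ c : ℝ, 0 ≤ b ^ 2 * (c * c) + X * c + a ^ 2 := by
    intro c
    have h := hT (x + (c : ℂ) • y)
    have e : B (T (x + (c : ℂ) • y)) (x + (c : ℂ) • y)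
        = B (T x) x + c * X + c ^ 2 * B (T y) y := by
      have h3 : B (adjoint T x) y = B (T y) x := by
        rw [B_adj', B_comm]
      simp only [map_add, map_smul, B_add, B_addr, B_smul, B_smulr]
      rw [hX, B_add, h3]
      ring
    rw [e] at h
    have h2 : c ^ 2 * B (T y) y ≤ c ^ 2 * b ^ 2 := mul_le_mul_of_nonneg_left hy (sq_nonneg c)
    nlinarith
  have h2 := discrim_le_zero h1
  unfold discrim at h2
  apply abs_le_of_sq_le_sq _ (by positivity)
  nlinarith

theorem cs_norm (T : H →L[ℂ] H) (hT : ∀ x, 0 ≤ B (T x) x) (x : H) (a c : ℝ) (ha : 0 ≤ a)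
    (hc : 0 ≤ c) (hx : B (T x) x ≤ a ^ 2) (hn : ‖T‖ ≤ c ^ 2) :
    ‖T x + adjoint T x‖ ≤ 2 * a * c := by
  set z := T x + adjoint T x with hz
  have hz2 : B (T z) z ≤ (c * ‖z‖) ^ 2 := by
    calc B (T z) z ≤ ‖T z‖ * ‖z‖ := B_le _ _
      _ ≤ (‖T‖ * ‖z‖) * ‖z‖ := by gcongr; exact T.le_opNorm z
      _ ≤ (c ^ 2 * ‖z‖) * ‖z‖ := by gcongr
      _ = (c * ‖z‖) ^ 2 := by ring
  have h := cs T hT x z a (c * ‖z‖) ha (by positivity) hx hz2
  rw [← hz, B_self, abs_of_nonneg (by positivity)] at h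
  rcases (norm_nonneg z).eq_or_lt with h0 | h0
  · rw [← h0]; positivity
  · have : ‖z‖ * ‖z‖ ≤ (2 * a * c) * ‖z‖ := by nlinarith
    exact le_of_mul_le_mul_right this h0

end Pool.Agent.Lib.MP_c3d375_an.Neg.H59
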