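import Pool.Agent.Lib.MP_c3d375_an.Neg.H59.Form

/-!
# Lemma P' (section 3 of `Neg/Paper.md`), abstract form

`Q = q^(S)`, `j = j(S)`, `K = Q j`, `De = Delta(S)`, `N = Q (1 + De)`, `R = rho`.
-/

set_option linter.unusedSectionVars false

open Complex ContinuousLinearMap

namespace Pool.Agent.Lib.MP_c3d375_an.Neg.H59

variable {H : Type*} [NormedAddCommGroup H] [InnerProductSpace ℂ H] [CompleteSpace H]

theorem adj_mul (S T : H →L[ℂ] H) (x : H) :
    adjoint (S * T) x = adjoint T (adjoint S x) := by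
  rw [← ContinuousLinearMap.star_eq_adjoint, star_mul]
  rfl

theorem opn {T : H →L[ℂ] H} {c : ℝ} (h : ‖T‖ ≤ c) (x : H) : ‖T x‖ ≤ c * ‖x‖ :=
  (T.le_opNorm x).trans (by gcongr)

theorem adjn {T : H →L[ℂ] H} {c : ℝ} (h : ‖T‖ ≤ c) (x : H) : ‖adjoint T x‖ ≤ c * ‖x‖ :=
  opn (T := adjoint T) (by
    have := ContinuousLinearMap.adjoint.norm_map T
    rwa [this]) x

/-- Abstract data of sections 1.5 and 1.6. -/
structure PData (m e R : ℝ) (Q j De : H →L[ℂ] H) : Prop where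
  m1 : 1 ≤ m
  e0 : 0 < e
  R0 : 0 < R
  Rm : R ≤ m
  Qj : Commute Q j
  QD : Commute Q De
  jD : Commute j De
  J : j + Q * (Q * j) = 1
  nQ : ‖Q‖ ≤ m / R
  nj : ‖j‖ ≤ m
  nJ : ‖1 - j‖ ≤ m
  nK : ‖Q * j‖ ≤ m
  nD : ‖De‖ ≤ m * e
  pN : ∀ x, 0 ≤ B ((Q * (1 + De)) x) x
  pj : ∀ x, -(m * e * ‖j x‖ ^ 2) ≤ B (j x) x
  pJ : ∀ x, -(m * e * ‖(1 - j) x‖ ^ 2) ≤ B ((1 - j) x) x
  pH : ∀ x, -((1 + m * e) * ‖x‖ ^ 2) ≤ B (Q (Q x)) x

namespace PData

variable {m e R : ℝ} {Q j De : H →L[ℂ] H}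

/-- `B (N x) x = B (Q x) x + B (De (Q x)) x`. -/
theorem Nx (d : PData m e R Q j De) (x : H) : (Q * (1 + De)) x = Q x + De (Q x) := by
  have h : (Q * De) x = (De * Q) x := by rw [d.QD.eq]
  have h' : Q (De x) = De (Q x) := h
  have h2 : (Q * (1 + De)) x = Q (x + De x) := rfl
  rw [h2, map_add, h']

theorem Nax (Q De : H →L[ℂ] H) (x : H) :
    adjoint (Q * (1 + De)) x = adjoint Q x + adjoint De (adjoint Q x) := by
  rw [adj_mul]
  have h1 : adjoint (1 + De) = 1 + adjoint De := by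
    rw [← ContinuousLinearMap.star_eq_adjoint, star_add, star_one]
    rfl
  rw [h1]
  rfl

theorem QQj (d : PData m e R Q j De) (x : H) : Q (Q (j x)) = x - j x := by
  have h : (j + Q * (Q * j)) x = x := by rw [d.J]; rfl
  have h2 : (j + Q * (Q * j)) x = j x + Q (Q (j x)) := rfl
  rw [h2] at h
  rw [← h]
  abel_nf
  rw [h]
  abel

theorem jQ (d : PData m e R Q j De) (x : H) : j (Q x) = Q (j x) := by
  have h : (Q * j) x = (j * Q) x := by rw [d.Qj.eq]
  exact h.symm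

theorem DQ (d : PData m e R Q j De) (x : H) : De (Q x) = Q (De x) := by
  have h : (Q * De) x = (De * Q) x := by rw [d.QD.eq]
  exact h.symm

theorem jD' (d : PData m e R Q j De) (x : H) : De (j x) = j (De x) := by
  have h : (j * De) x = (De * j) x := by rw [d.jD.eq]
  exact h.symm

end PData

end Pool.Agent.Lib.MP_c3d375_an.Neg.H59
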